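import Pool.Agent.MWL.Stmts

/-!
# Squad MWL, row STP
-/

set_option autoImplicit false

namespace Pool.Agent.MWL.H65

open Pool.Agent.MVO

theorem ad_insert65 (n : ℕ) (a : ℕ → ℕ) (S : Finset ℕ) (i : ℕ) (hi : i ∉ S) :
    (fun j => a j + if j ∈ insert i S then 2 * n else 0) =
      ad n (fun j => a j + if j ∈ S then 2 * n else 0) i := by
  funext j
  show a j + (if j ∈ insert i S then 2 * n else 0) =
    a j + (if j ∈ S then 2 * n else 0) + if j = i then 2 * n else 0
  by_cases hj : j = i
  · subst hj
    simp [hi]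
  · simp [Finset.mem_insert, hj]

theorem stp (hT : TrnStmt) (hK : KeyStmt) (hA : AbsStmt) : StpStmt := by
  classical
  intro n R hLR hND k a b hab
  have up : ∀ (c : ℕ → ℕ) (S : Finset ℕ), (∀ i ∈ S, i ≤ k ∧ Ab n R k c i) →
      Relation.ReflTransGen (El n R k) c (fun j => c j + if j ∈ S then 2 * n else 0) ∧
      Relation.ReflTransGen (El n R k) (fun j => c j + if j ∈ S then 2 * n else 0) c := by
    intro c S
    induction S using Finset.induction_on with
    | empty =>
      intro _
      have : (fun j => c j + if j ∈ (∅ : Finset ℕ) then 2 * n else 0) = c := by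
        funext j
        simp
      rw [this]
      exact ⟨Relation.ReflTransGen.refl, Relation.ReflTransGen.refl⟩
    | insert i S hi ih =>
      intro h
      obtain ⟨h1, h2⟩ := ih fun j hj => h j (Finset.mem_insert_of_mem hj)
      obtain ⟨hik, hiA⟩ := h i (Finset.mem_insert_self i S)
      have hab2 : Ab n R k (fun j => c j + if j ∈ S then 2 * n else 0) i :=
        (hT n R k c i).2.1 (fun j => if j ∈ S then 2 * n else 0) hiA
      rw [ad_insert65 n c S i hi]
      exact ⟨h1.tail (Or.inl ⟨i, hik, hab2, rfl⟩),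
        Relation.ReflTransGen.head (Or.inr (Or.inl ⟨i, hik, hab2, rfl⟩)) h2⟩
  let S : Finset ℕ := (Finset.range (k + 1)).filter (fun i => Ab n R k a i)
  have hS : ∀ i, i ∈ S ↔ i ≤ k ∧ Ab n R k a i := by
    intro i
    rw [Finset.mem_filter, Finset.mem_range, Nat.lt_succ_iff]
  have hSb : ∀ i ∈ S, i ≤ k ∧ Ab n R k b i := fun i hi =>
    ⟨((hS i).mp hi).1, ((hT n R k a i).1 b hab).mp ((hS i).mp hi).2⟩
  have h1 := (up a S fun i hi => (hS i).mp hi).1
  have h2 := (up b S hSb).2
  have hRa : R.R k a (fun j => a j + if j ∈ S then 2 * n else 0) :=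
    (hA n R hLR k a).1 S fun i hi => ((hS i).mp hi).2
  have hRb : R.R k b (fun j => b j + if j ∈ S then 2 * n else 0) :=
    (hA n R hLR k b).1 S fun i hi => (hSb i hi).2
  have hmid : El n R k (fun j => a j + if j ∈ S then 2 * n else 0)
      (fun j => b j + if j ∈ S then 2 * n else 0) := by
    refine Or.inr (Or.inr ⟨R.trans (R.trans (R.symm hRa) hab) hRb, ?_⟩)
    intro j hj
    by_cases hjS : j ∈ S
    · right
      have := hLR.pos
      show 2 ≤ a j + (if j ∈ S then 2 * n else 0) ∧ 2 ≤ b j + (if j ∈ S then 2 * n else 0)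
      rw [if_pos hjS]
      omega
    · left
      have hnot : ¬ Ab n R k a j := fun h => hjS ((hS j).mpr ⟨hj, h⟩)
      have hEq := hK n R hLR hND k a b hab j hj hnot
      show a j + (if j ∈ S then 2 * n else 0) = b j + (if j ∈ S then 2 * n else 0)
      rw [hEq]
  exact (h1.tail hmid).trans h2

end Pool.Agent.MWL.H65
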